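import Pool.Agent.PST.StmtsGR
import Pool.Agent.PSS.Ats

/-!
# Squad PST, row ATQ: the theorem for algebras from the steps and the base case
-/

noncomputable section

namespace Pool.Agent.PST.H11

open Pool.Agent.PSS

theorem atq : AtqRow := by
  intro stp stq bas n
  induction n with
  | zero =>
    intro ℓ _ F V E A B _ _ _ _ _ _ _ _ _ _ _ φ α W ψ hp hE hc hr hw hA hB
    change W = ⊤ at hc
    subst hc
    refine bas ℓ F V E A B φ α hp hE ?_ hA hB
    rcases hw with hw | hw
    · left
      have : Subsingleton V := by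
        constructor
        intro a b
        have ha : a ∈ (⊥ : Subgroup V) := hw ▸ Subgroup.mem_top a
        have hb : b ∈ (⊥ : Subgroup V) := hw ▸ Subgroup.mem_top b
        rw [Subgroup.mem_bot.1 ha, Subgroup.mem_bot.1 hb]
      exact Nat.card_unique
    · right
      refine Fre.tr (Subgroup.topEquiv (G := V)) (φ := ψ) (ψ := φ) ?_ hw
      intro e v
      exact (hr e v).symm
  | succ n ih =>
    intro ℓ _ F V E A B _ _ _ _ _ _ _ _ _ _ _ φ α W ψ hp hE hc hr hw hA hB
    obtain ⟨W', ψ', hY, hWW, hr', hc'⟩ := hc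
    have hst : ∀ e : E, ∀ w ∈ W, φ e w ∈ W := by
      intro e w hw'
      have := hr e ⟨w, hw'⟩
      rw [← this]
      exact (ψ e ⟨w, hw'⟩).2
    have : Fintype W' := Fintype.ofFinite W'
    have key : ∃ (F' C B' : Type) (_ : Field F') (_ : IsAlgClosed F') (_ : CharP F' ℓ)
        (_ : Ring C) (_ : Algebra F' C) (_ : Ring B') (_ : Algebra F' B') (γ : W' →* C)
        (_ : IsNW F' γ (W.subgroupOf W') B'), Cl F' ψ' γ ∧
        Module.finrank F' (Subalgebra.center F' C) = Module.finrank F (Subalgebra.center F A) ∧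
        Module.finrank F' (Subalgebra.center F' B') =
          Module.finrank F (Subalgebra.center F B) := by
      rcases hY with ⟨Y, hY⟩ | hY
      · exact stp ℓ F V E A B φ α Y W' W ψ' hp hE hY hr' hWW hst hA hB
      · exact stq ℓ F V E A B φ α W' W ψ' hp hE hY hr' hWW hst hA hB
    obtain ⟨F', C, B', i1, i2, i3, i4, i5, i6, i7, γ, nw, hC, h1, h2⟩ := key
    let s : W ≃* (W.subgroupOf W') := (Subgroup.subgroupOfEquivOfLe hWW).symm
    have hs : ∀ w : W, (((s w : W.subgroupOf W') : W') : V) = w := by
      intro w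
      rfl
    have hrs : IsRs ψ' (W.subgroupOf W') (trA s ψ) := by
      intro e w
      apply Subtype.ext
      rw [hr']
      obtain ⟨v, rfl⟩ := s.surjective w
      rw [trA_apply, s.symm_apply_apply, hs, hs]
      exact hr e v
    have hfin := ih ℓ F' W' E C B' ψ' γ (W.subgroupOf W') (trA s ψ)
      (hp.to_subgroup W') hE hc' hrs ?_ hC nw
    · rw [← h1, ← h2]
      exact hfin
    · rcases hw with hw | hw
      · left
        subst hw
        exact Subgroup.bot_subgroupOf W'
      · right
        refine Fre.tr s (φ := ψ) ?_ hw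
        intro e v
        rw [trA_apply, s.symm_apply_apply]

end Pool.Agent.PST.H11
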