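import Pool.Agent.PST.StmtsDR

/-!
# Squad PST, row PWR: powers in the ring of a deformation, to first order
-/

open scoped BigOperators

noncomputable section

namespace Pool.Agent.PST.H11

open Pool.Agent.PSS Finset

section

variable {k A W : Type} [CommRing k] [Ring A] [Algebra k A] [Group W] {om : W →* A}
  (D : Dm k om)

theorem sq_mul (x y : D.R) : D.sq (x * y) = D.mul (D.sq x) (D.sq y) := by
  have h := D.of_mul (D.sq x) (D.sq y)
  rw [D.of_sq, D.of_sq] at h
  rw [← h, D.sq_of]

theorem mul_z (f g : ℕ → A) : D.mul f g 0 = f 0 * g 0 := by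
  simp [Dm.mul, D.m0]

theorem mul_o (f g : ℕ → A) :
    D.mul f g 1 = f 0 * g 1 + f 1 * g 0 + D.m 1 (f 0) (g 0) := by
  rw [Dm.mul, Finset.Nat.sum_antidiagonal_eq_sum_range_succ
    (fun a b => ∑ q ∈ antidiagonal b, D.m a (f q.1) (g q.2)), Finset.sum_range_succ,
    Finset.sum_range_one]
  simp only [Nat.sub_zero, Nat.sub_self]
  rw [Finset.Nat.sum_antidiagonal_eq_sum_range_succ (fun a b => D.m 0 (f a) (g b)),
    Finset.sum_range_succ, Finset.sum_range_one]
  simp [D.m0]

theorem smulq_X (g : ℕ → A) (n : ℕ) :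
    Dm.smulq (PowerSeries.X : PowerSeries k) g (n + 1) = g n := by
  rw [Dm.smulq, Finset.sum_eq_single (1, n)]
  · rw [PowerSeries.coeff_one_X, one_smul]
  · rintro ⟨a, b⟩ h hne
    rw [Finset.HasAntidiagonal.mem_antidiagonal] at h
    rw [PowerSeries.coeff_X, if_neg, zero_smul]
    intro h1
    apply hne
    simp only at h h1
    rw [h1] at h ⊢
    have : b = n := by omega
    rw [this]
  · intro h
    exact absurd (by rw [Finset.HasAntidiagonal.mem_antidiagonal]; exact Nat.add_comm 1 n) h

theorem smulq_X0 (g : ℕ → A) : Dm.smulq (PowerSeries.X : PowerSeries k) g 0 = 0 := by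
  simp [Dm.smulq]

end

theorem pwr : PwrStmt := by
  intro k A W _ _ _ _ om D a a₁ h h₁ n
  have hp : ∀ n : ℕ,
      D.sq (D.of (fun i => if i = 0 then a else if i = 1 then - h else 0) ^ n) 0 = a ^ n ∧
      D.sq (D.of (fun i => if i = 0 then a else if i = 1 then - h else 0) ^ n) 1 =
        ∑ i ∈ Finset.range n, (D.m 1 (a ^ i) a - a ^ i * h) * a ^ (n - 1 - i) := by
    intro n
    induction n with
    | zero =>
      rw [pow_zero, ← D.of_one, D.sq_of]
      simp [Dm.cst]
    | succ n ih =>
      obtain ⟨h0, h1⟩ := ih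
      rw [pow_succ, sq_mul, mul_z, mul_o, h0, h1, D.sq_of]
      simp only [if_true, one_ne_zero, if_false]
      refine ⟨(pow_succ a n).symm, ?_⟩
      rw [Finset.sum_range_succ, Finset.sum_mul]
      have h2 : ∀ i ∈ Finset.range n, (D.m 1 (a ^ i) a - a ^ i * h) * a ^ (n - 1 - i) * a =
          (D.m 1 (a ^ i) a - a ^ i * h) * a ^ (n + 1 - 1 - i) := by
        intro i hi
        rw [Finset.mem_range] at hi
        rw [mul_assoc, ← pow_succ]
        have : n - 1 - i + 1 = n + 1 - 1 - i := by omega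
        rw [this]
      rw [Finset.sum_congr rfl h2, Nat.add_sub_cancel, Nat.sub_self, pow_zero, mul_one]
      rw [mul_neg]
      abel
  refine ⟨?_, (hp n).1, (hp n).2, ?_, ?_⟩
  · intro f hf
    refine ⟨D.of (fun n => f (n + 1)), ?_, ?_, ?_⟩
    · rw [← D.of_smul]
      congr 1
      funext n
      rcases n with _ | n
      · rw [smulq_X0, hf]
      · rw [smulq_X]
    · rw [D.sq_of]
    · rw [D.sq_of]
  · rw [sq_mul, mul_z, D.sq_of, D.sq_of]
    simp only [if_true]
  · rw [sq_mul, mul_o, D.sq_of, D.sq_of]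
    simp only [if_true, one_ne_zero, if_false]
    rw [mul_neg, neg_mul]
    abel

end Pool.Agent.PST.H11
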